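import Pool.Agent.R597.Scft
import Pool.Agent.R597.SP

/-!
# Forcing preserves winning strategies of II in the strong countable fan tightness game on `C_p(X)`
-/

set_option autoImplicit false

namespace Pool.Agent.Results.MP_abf503_lc.StrongFanTightnessOfCp

open Pool.Agent.W868 Pool.Agent.W868.GM Pool.Agent.Y588 Pool.Agent.R597
open ZFSet (pair)

/-- The set that codes the real number `r`: the Dedekind cut of `r`, a rational number `q` is
represented by its code, a natural number. -/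
noncomputable def cut (r : ℝ) : ZFSet.{0} :=
  ZFSet.sep (fun z => ∃ q : ℚ, (q : ℝ) < r ∧ z = nat (Encodable.encode q)) ZFSet.omega

/-- The set `f` is the function on the set `X` with the real values `φ x`, `x ∈ X`. -/
def IsRealFun (X : ZFSet.{0}) (φ : ZFSet.{0} → ℝ) (f : ZFSet.{0}) : Prop :=
  ∀ p, p ∈ f ↔ ∃ x ∈ X, p = pair x (cut (φ x))

/-- The function `φ` is continuous on the set `X` with the topology `σ`. -/
def IsCont (X σ : ZFSet.{0}) (φ : ZFSet.{0} → ℝ) : Prop :=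
  ∀ x ∈ X, ∀ ε > 0, ∃ U ∈ σ, x ∈ U ∧ ∀ y ∈ U, |φ y - φ x| < ε

/-- The function `g` differs from `f` by less than `ε` at the points of the finite set `F`. -/
def Near (F : Finset ZFSet.{0}) (ε : ℝ) (f g : ZFSet.{0}) : Prop :=
  ∀ x ∈ F, ∀ a b : ℝ, pair x (cut a) ∈ f → pair x (cut b) ∈ g → |b - a| < ε

/-- In the model `M`, the pair `(X, σ)` is a topological space, and `(Y, τ)` is the space
`C_p(X)`: `Y` is the set of the continuous real functions on `X` that are in `M`, and `τ` is the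
topology of pointwise convergence, the set of the sets `U ⊆ Y` in `M` that contain with each `f`
all functions in `Y` that are close to `f` at the points of some finite subset of `X`. -/
structure IsCp (M : Set ZFSet.{0}) (X σ Y τ : ZFSet.{0}) : Prop where
  space : IsTop M X σ
  fun_mem : Y ∈ M
  top_mem : τ ∈ M
  mem_fun : ∀ f, f ∈ Y ↔ f ∈ M ∧ ∃ φ, IsRealFun X φ f ∧ IsCont X σ φ
  mem_top : ∀ U, U ∈ τ ↔ U ∈ M ∧ U ⊆ Y ∧ ∀ f ∈ U, ∃ F : Finset ZFSet.{0}, ∃ ε > 0,
    (∀ x ∈ F, x ∈ X) ∧ ∀ g ∈ Y, Near F ε f g → g ∈ U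

/-- The topology of pointwise convergence of the model `M` is a topology in `M`. -/
theorem IsCp.isTop {M : Set ZFSet.{0}} (hM : IsZF M) {X σ Y τ : ZFSet.{0}}
    (h : IsCp M X σ Y τ) : IsTop M Y τ where
  set_mem := h.fun_mem
  top_mem := h.top_mem
  sub U hU := ((h.mem_top U).1 hU).2.1
  whole := (h.mem_top Y).2 ⟨h.fun_mem, fun _ h => h, fun _ _ =>
    ⟨∅, 1, one_pos, by simp, fun g hg _ => hg⟩⟩
  inter U hU V hV := by
    classical
    obtain ⟨h1, h2, h3⟩ := (h.mem_top U).1 hU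
    obtain ⟨h4, h5, h6⟩ := (h.mem_top V).1 hV
    refine (h.mem_top _).2 ⟨?_, fun z hz => h2 (ZFSet.mem_inter.1 hz).1, fun f hf => ?_⟩
    · exact hM.sep_mem (Q := fun z => z ∈ V) (Dfn.mem (DfnF.proj 0) (DfnF.const h4)) h1
    · obtain ⟨hfU, hfV⟩ := ZFSet.mem_inter.1 hf
      obtain ⟨F, ε, hε, hF, h7⟩ := h3 f hfU
      obtain ⟨F', ε', hε', hF', h8⟩ := h6 f hfV
      refine ⟨F ∪ F', min ε ε', lt_min hε hε', fun x hx => ?_, fun g hg h9 =>
        ZFSet.mem_inter.2 ⟨h7 g hg fun x hx a b ha hb => ?_, h8 g hg fun x hx a b ha hb => ?_⟩⟩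
      · rcases Finset.mem_union.1 hx with hx | hx
        · exact hF x hx
        · exact hF' x hx
      · exact lt_of_lt_of_le (h9 x (Finset.mem_union_left _ hx) a b ha hb) (min_le_left _ _)
      · exact lt_of_lt_of_le (h9 x (Finset.mem_union_right _ hx) a b ha hb) (min_le_right _ _)
  union s hs hsub := by
    refine (h.mem_top _).2 ⟨hM.union _ hs, fun z hz => ?_, fun f hf => ?_⟩
    · obtain ⟨U, hU, hz⟩ := ZFSet.mem_sUnion.1 hz
      exact ((h.mem_top U).1 (hsub hU)).2.1 hz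
    · obtain ⟨U, hU, hf⟩ := ZFSet.mem_sUnion.1 hf
      obtain ⟨F, ε, hε, hF, h7⟩ := ((h.mem_top U).1 (hsub hU)).2.2 f hf
      exact ⟨F, ε, hε, hF, fun g hg h9 => ZFSet.mem_sUnion.2 ⟨U, hU, h7 g hg h9⟩⟩

/-- Let `M` be a transitive model of ZFC, `P` a notion of forcing of `M`, `(X, σ)` a topological
space of `M` and `(Y, τ)` the space `C_p(X)` of `M`. -/
theorem result (M : Set ZFSet.{0}) (hM : IsZFC M) (P Le X σ Y τ : ZFSet.{0})
    (hP : IsForcing M P Le) (hY : IsCp M X σ Y τ) (h : ∀ y ∈ Y, IIWins M Y τ y) (G : ZFSet.{0})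
    (hG : IsGeneric M P Le G) :
    IsZFC (ext M G) ∧ ∀ y ∈ Y, IIWins (ext M G) Y τ y := by
  have hX := hY.isTop hM.toIsZF
  have hN := isZFC_ext hM hP hG
  exact ⟨hN, fun x hx => iiWins_up hM hN (sub_ext hM.toIsZF hP hG) hX.set_mem hX.top_mem
    (hM.trans _ hX.set_mem _ hx) hX.sub (h x hx)⟩

end Pool.Agent.Results.MP_abf503_lc.StrongFanTightnessOfCp
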